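import Pool.Agent.Y554.SN.Stm2
import Pool.Agent.H389R2.NS.NoiseS

/-!
Job SN-STEP: one step of the recursion.
-/

set_option autoImplicit false

namespace Pool.Agent.Y77.SN

open H974 H12S H985T Finset Pool.Agent.Y554.DP Pool.Agent.Y554.SN
open H389NS hiding cel

/-! ### counting grid points -/

theorem card_grid1 {g N : ℕ} (hg : 1 ≤ g) (a : ℤ) :
    ((Finset.Ico a (a + N * g)).filter (fun x => (g : ℤ) ∣ x)).card ≤ N := by
  have hg' : (0 : ℤ) < g := by exact_mod_cast hg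
  set k0 : ℤ := -((-a) / (g : ℤ)) with hk0
  have h1 : ((Finset.Ico a (a + N * g)).filter (fun x => (g : ℤ) ∣ x)) ⊆
      (Finset.Ico k0 (k0 + N)).image (fun k => (g : ℤ) * k) := by
    intro x hx
    rw [Finset.mem_filter, Finset.mem_Ico] at hx
    obtain ⟨⟨h1, h2⟩, k, rfl⟩ := hx
    rw [Finset.mem_image]
    refine ⟨k, ?_, rfl⟩
    rw [Finset.mem_Ico]
    have h3 : (g : ℤ) * ((-a) / (g : ℤ)) ≤ -a := Int.mul_ediv_self_le hg'.ne'
    have h4 : -a < (g : ℤ) * ((-a) / (g : ℤ)) + g := Int.lt_mul_ediv_self_add hg'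
    have h5 : (g : ℤ) * k0 = -((g : ℤ) * ((-a) / (g : ℤ))) := by rw [hk0]; ring
    constructor
    · by_contra hlt
      have h6 : k ≤ k0 - 1 := by omega
      have h7 : (g : ℤ) * k ≤ g * (k0 - 1) := mul_le_mul_of_nonneg_left h6 hg'.le
      nlinarith
    · by_contra hlt
      have h6 : k0 + N ≤ k := by omega
      have h7 : (g : ℤ) * (k0 + N) ≤ g * k := mul_le_mul_of_nonneg_left h6 hg'.le
      nlinarith
  refine (Finset.card_le_card h1).trans (Finset.card_image_le.trans ?_)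
  rw [Int.card_Ico]
  omega

theorem card_grid2 {g N : ℕ} (hg : 1 ≤ g) (a b : ℤ) (s : Finset (ℤ × ℤ))
    (hs : ∀ c ∈ s, (g : ℤ) ∣ c.1 ∧ (g : ℤ) ∣ c.2 ∧ a ≤ c.1 ∧ c.1 < a + N * g ∧ b ≤ c.2 ∧
      c.2 < b + N * g) : s.card ≤ N * N := by
  have h1 : s ⊆ ((Finset.Ico a (a + N * g)).filter (fun x => (g : ℤ) ∣ x)) ×ˢ
      ((Finset.Ico b (b + N * g)).filter (fun x => (g : ℤ) ∣ x)) := by
    intro c hc
    obtain ⟨h1, h2, h3, h4, h5, h6⟩ := hs c hc
    rw [Finset.mem_product, Finset.mem_filter, Finset.mem_filter, Finset.mem_Ico, Finset.mem_Ico]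
    exact ⟨⟨⟨h3, h4⟩, h1⟩, ⟨⟨h5, h6⟩, h2⟩⟩
  refine (Finset.card_le_card h1).trans ?_
  rw [Finset.card_product]
  exact Nat.mul_le_mul (card_grid1 hg a) (card_grid1 hg b)

theorem mem_cel {g ρ : ℕ} {c : ℤ × ℤ} : c ∈ Pool.Agent.Y554.SN.cel g ρ ↔
    (-(ρ : ℤ) ≤ c.1 ∧ c.1 ≤ ρ) ∧ (-(ρ : ℤ) ≤ c.2 ∧ c.2 ≤ ρ) ∧ (g : ℤ) ∣ c.1 ∧ (g : ℤ) ∣ c.2 := by
  unfold Pool.Agent.Y554.SN.cel
  rw [Finset.mem_filter, Finset.mem_product, Finset.mem_Icc, Finset.mem_Icc]
  tauto

/-- the grid point below -/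
def fl (g : ℕ) (c : ℤ × ℤ) : ℤ × ℤ := ((g : ℤ) * (c.1 / g), (g : ℤ) * (c.2 / g))

theorem fl_bd {g : ℕ} (hg : 1 ≤ g) (c : ℤ × ℤ) :
    (fl g c).1 ≤ c.1 ∧ c.1 < (fl g c).1 + g ∧ (fl g c).2 ≤ c.2 ∧ c.2 < (fl g c).2 + g := by
  have hg' : (0 : ℤ) < g := by exact_mod_cast hg
  exact ⟨Int.mul_ediv_self_le hg'.ne', Int.lt_mul_ediv_self_add hg',
    Int.mul_ediv_self_le hg'.ne', Int.lt_mul_ediv_self_add hg'⟩

theorem fl_mem {g : ℕ} (hg : 1 ≤ g) {ρ ρ' : ℕ} (h : ρ + g ≤ ρ') {c : ℤ × ℤ}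
    (h1 : -(ρ : ℤ) ≤ c.1) (h2 : c.1 ≤ ρ) (h3 : -(ρ : ℤ) ≤ c.2) (h4 : c.2 ≤ ρ) :
    fl g c ∈ Pool.Agent.Y554.SN.cel g ρ' := by
  obtain ⟨k1, k2, k3, k4⟩ := fl_bd hg c
  rw [mem_cel]
  refine ⟨⟨by omega, by omega⟩, ⟨by omega, by omega⟩, ⟨c.1 / g, rfl⟩, ⟨c.2 / g, rfl⟩⟩

theorem mem_blk_fl {g : ℕ} (hg : 1 ≤ g) (e : Edg) : e ∈ blk (fl g (e.1, e.2.1)) (3 * g) := by
  obtain ⟨k1, k2, k3, k4⟩ := fl_bd hg (e.1, e.2.1)
  obtain ⟨x, y, b⟩ := e
  simp only at k1 k2 k3 k4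
  unfold blk
  cases b
  · rw [mem_RE_false]
    push_cast
    omega
  · rw [mem_RE_true]
    push_cast
    omega

theorem blk_sub_blk {c c' : ℤ × ℤ} {t t' : ℕ} (h1 : c'.1 - t' ≤ c.1 - t)
    (h2 : c.1 + t ≤ c'.1 + t') (h3 : c'.2 - t' ≤ c.2 - t) (h4 : c.2 + t ≤ c'.2 + t') :
    blk c t ⊆ blk c' t' := by
  unfold blk
  exact RE_subset h1 h2 h3 h4

theorem boxE_mono {a b : ℕ} (h : a ≤ b) : boxE a ⊆ boxE b := by
  unfold boxE
  apply RE_subset <;> omega

/-- elementary inequality -/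
theorem bern {a b : ℝ} (ha : 0 ≤ a) (ha1 : a ≤ 1) (hab : a ≤ b) (k : ℕ) :
    a ^ k + (b - a) * (k * a ^ k) ≤ b ^ k := by
  induction k with
  | zero => simp
  | succ k ih =>
    have h1 : 0 ≤ a ^ k := pow_nonneg ha k
    have h2 : a ^ (k + 1) ≤ a ^ k := by
      rw [pow_succ]
      exact mul_le_of_le_one_right h1 ha1
    have h3 : b * (a ^ k + (b - a) * (k * a ^ k)) ≤ b * b ^ k :=
      mul_le_mul_of_nonneg_left ih (ha.trans hab)
    have h4 : 0 ≤ (b - a) * ((b - a) * (k * a ^ k)) := by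
      have : 0 ≤ b - a := sub_nonneg.2 hab
      positivity
    have h5 : 0 ≤ (b - a) * (a ^ k - a ^ (k + 1)) :=
      mul_nonneg (sub_nonneg.2 hab) (sub_nonneg.2 h2)
    have h6 : b ^ (k + 1) = b * b ^ k := by ring
    rw [h6]
    push_cast
    have h7 : a ^ (k + 1) = a * a ^ k := by ring
    rw [h7] at h5 ⊢
    nlinarith

section main

variable {p : Edg → ℝ} {S : Finset Edg} {I J I' J' : Set Vtx} {n g : ℕ}

/-- (i) -/
theorem phi_le_mm (hab : S_AB) (D : DomN p S I J I' J' n) (hg : 1 ≤ g)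
    (hn : n / 2 + 66 * g ≤ n) {h : ℝ} (h0 : 0 ≤ h) (h1 : h ≤ 1) :
    phi p S I J n (n / 2 + g) h ≤ mm p S I J n g h := by
  classical
  have AB4 := (hab p D.ok S (boxE n) I J D.sub).2.2.2 D.fair
  have hw : ∀ T, 0 ≤ sp p S (boxE n) (fC I J) T * (1 - h) ^ T.card := fun T =>
    mul_nonneg (H389NS.sp_nonneg D.ok _ _ _ _) (pow_nonneg (by linarith) _)
  unfold phi mm
  have hstep : ∑ T ∈ (boxE n).powerset.filter (fun T => ¬ Disjoint T (boxE (n / 2 + g))),
      sp p S (boxE n) (fC I J) T * (1 - h) ^ T.card ≤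
      ∑ c ∈ Pool.Agent.Y554.SN.cel g (n / 2 + 2 * g),
        ∑ T ∈ (boxE n).powerset.filter (fun T => ¬ Disjoint T (blk c (3 * g))),
          sp p S (boxE n) (fC I J) T * (1 - h) ^ T.card := by
    have e1 : ∀ c, ∑ T ∈ (boxE n).powerset.filter (fun T => ¬ Disjoint T (blk c (3 * g))),
          sp p S (boxE n) (fC I J) T * (1 - h) ^ T.card =
        ∑ T ∈ (boxE n).powerset, if ¬ Disjoint T (blk c (3 * g)) then
          sp p S (boxE n) (fC I J) T * (1 - h) ^ T.card else 0 := fun c =>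
      Finset.sum_filter _ _
    simp only [e1]
    rw [Finset.sum_filter, Finset.sum_comm]
    refine Finset.sum_le_sum fun T _ => ?_
    have hnn : ∀ c ∈ Pool.Agent.Y554.SN.cel g (n / 2 + 2 * g),
        0 ≤ if ¬ Disjoint T (blk c (3 * g)) then
          sp p S (boxE n) (fC I J) T * (1 - h) ^ T.card else 0 := by
      intro c _
      split_ifs
      · exact le_refl _
      · exact hw T
    by_cases hT : ¬ Disjoint T (boxE (n / 2 + g))
    · rw [if_pos hT]
      rw [Finset.not_disjoint_iff] at hT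
      obtain ⟨e, he1, he2⟩ := hT
      have hb := boxE_bd he2
      have hc : fl g (e.1, e.2.1) ∈ Pool.Agent.Y554.SN.cel g (n / 2 + 2 * g) :=
        fl_mem hg (ρ := n / 2 + g) (by omega) hb.1 hb.2.1 hb.2.2.1 hb.2.2.2
      refine le_trans ?_ (Finset.single_le_sum hnn hc)
      rw [if_pos]
      rw [Finset.not_disjoint_iff]
      exact ⟨e, he1, mem_blk_fl hg e⟩
    · rw [if_neg hT]
      exact Finset.sum_nonneg hnn
  refine hstep.trans (Finset.sum_le_sum fun c hc => ?_)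
  rw [mem_cel] at hc
  apply AB4 _ h _ h0 h1
  apply blk_sub_boxE
  · have : |c.1| ≤ ((n / 2 + 2 * g : ℕ) : ℤ) := abs_le.2 hc.1
    have h3 : n / 2 + 2 * g + 3 * g ≤ n := by omega
    have h4 : ((n / 2 + 2 * g : ℕ) : ℤ) + ((3 * g : ℕ) : ℤ) ≤ n := by exact_mod_cast h3
    linarith
  · have : |c.2| ≤ ((n / 2 + 2 * g : ℕ) : ℤ) := abs_le.2 hc.2.1
    have h3 : n / 2 + 2 * g + 3 * g ≤ n := by omega
    have h4 : ((n / 2 + 2 * g : ℕ) : ℤ) + ((3 * g : ℕ) : ℤ) ≤ n := by exact_mod_cast h3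
    linarith

/-- (ii) -/
theorem phi_mono (hp : Ok p) {ρ ρ' : ℕ} (hρ : ρ ≤ ρ') {h h' : ℝ} (hh : h' ≤ h)
    (h1 : h ≤ 1) : phi p S I J n ρ h ≤ phi p S I J n ρ' h' := by
  classical
  unfold phi
  have hw : ∀ T, 0 ≤ sp p S (boxE n) (fC I J) T := fun T => H389NS.sp_nonneg hp _ _ _ _
  refine (Finset.sum_le_sum_of_subset_of_nonneg (t := (boxE n).powerset.filter
    (fun T => ¬ Disjoint T (boxE ρ'))) ?_ ?_).trans (Finset.sum_le_sum fun T _ => ?_)
  · intro T hT
    rw [Finset.mem_filter] at hT ⊢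
    refine ⟨hT.1, fun hd => hT.2 ?_⟩
    exact hd.mono_right (boxE_mono hρ)
  · intro T _ _
    exact mul_nonneg (hw T) (pow_nonneg (by linarith) _)
  · exact mul_le_mul_of_nonneg_left (pow_le_pow_left₀ (by linarith) (by linarith) _) (hw T)

/-- the sum over the coarse cells -/
theorem coarse (hg : 1 ≤ g) (F : ℤ × ℤ → ℝ) (hF : ∀ c, 0 ≤ F c) :
    ∑ c ∈ Pool.Agent.Y554.SN.cel g (n / 2 + 2 * g), F (fl (64 * g) c) ≤
      4096 * ∑ c ∈ Pool.Agent.Y554.SN.cel (64 * g) (n / 2 + 2 * (64 * g)), F c := by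
  classical
  have hmap : ∀ c ∈ Pool.Agent.Y554.SN.cel g (n / 2 + 2 * g),
      fl (64 * g) c ∈ Pool.Agent.Y554.SN.cel (64 * g) (n / 2 + 2 * (64 * g)) := by
    intro c hc
    rw [mem_cel] at hc
    exact fl_mem (by omega) (ρ := n / 2 + 2 * g) (by omega) hc.1.1 hc.1.2 hc.2.1.1 hc.2.1.2
  rw [← Finset.sum_fiberwise_of_maps_to hmap, Finset.mul_sum]
  refine Finset.sum_le_sum fun c' _ => ?_
  have h1 : ∑ c ∈ (Pool.Agent.Y554.SN.cel g (n / 2 + 2 * g)).filter
      (fun c => fl (64 * g) c = c'), F (fl (64 * g) c) =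
      (((Pool.Agent.Y554.SN.cel g (n / 2 + 2 * g)).filter
        (fun c => fl (64 * g) c = c')).card : ℝ) * F c' := by
    rw [Finset.sum_congr rfl (g := fun _ => F c') (fun c hc => by
      rw [(Finset.mem_filter.1 hc).2]), Finset.sum_const, nsmul_eq_mul]
  rw [h1]
  refine mul_le_mul_of_nonneg_right ?_ (hF c')
  have h2 : ((Pool.Agent.Y554.SN.cel g (n / 2 + 2 * g)).filter
        (fun c => fl (64 * g) c = c')).card ≤ 64 * 64 := by
    apply card_grid2 hg c'.1 c'.2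
    intro c hc
    rw [Finset.mem_filter, mem_cel] at hc
    obtain ⟨hc, rfl⟩ := hc
    obtain ⟨k1, k2, k3, k4⟩ := fl_bd (g := 64 * g) (by omega) c
    refine ⟨hc.2.2.1, hc.2.2.2, k1, ?_, k3, ?_⟩
    · push_cast at k2 ⊢
      exact k2
    · push_cast at k4 ⊢
      exact k4
  exact_mod_cast h2

/-- an edge belongs to few blocks -/
theorem few_blocks (hg : 1 ≤ g) (Dd : Finset (ℤ × ℤ))
    (hD : Dd ⊆ Pool.Agent.Y554.SN.cel g (n / 2 + 2 * g)) (T : Finset Edg) :
    ∑ c ∈ Dd, ((T ∩ blk c (4 * g)).card : ℝ) ≤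
      if ¬ Disjoint T (boxE (n / 2 + 64 * g)) then 81 * (T.card : ℝ) else 0 := by
  classical
  have h1 : ∑ c ∈ Dd, (T ∩ blk c (4 * g)).card =
      ∑ e ∈ T, (Dd.filter (fun c => e ∈ blk c (4 * g))).card := by
    have e1 : ∀ c, (T ∩ blk c (4 * g)).card = ∑ e ∈ T, if e ∈ blk c (4 * g) then 1 else 0 := by
      intro c
      rw [← Finset.filter_mem_eq_inter, Finset.card_filter]
    simp only [e1, Finset.card_filter]
    rw [Finset.sum_comm]
  have h2 : ∀ e ∈ T, (Dd.filter (fun c => e ∈ blk c (4 * g))).card ≤ 81 := by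
    intro e _
    have h3 : (Dd.filter (fun c => e ∈ blk c (4 * g))).card ≤ 9 * 9 := by
      apply card_grid2 hg (e.1 - 4 * g) (e.2.1 - 4 * g)
      intro c hc
      rw [Finset.mem_filter] at hc
      have hc2 := mem_blk_bd hc.2
      have hc1 := hD hc.1
      rw [mem_cel] at hc1
      push_cast at hc2
      refine ⟨hc1.2.2.1, hc1.2.2.2, ?_, ?_, ?_, ?_⟩ <;> push_cast <;> omega
    exact h3
  have hsub : ∀ c ∈ Dd, blk c (4 * g) ⊆ boxE (n / 2 + 64 * g) := by
    intro c hc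
    have hc1 := hD hc
    rw [mem_cel] at hc1
    have k1 : |c.1| ≤ ((n / 2 + 2 * g : ℕ) : ℤ) := abs_le.2 hc1.1
    have k2 : |c.2| ≤ ((n / 2 + 2 * g : ℕ) : ℤ) := abs_le.2 hc1.2.1
    apply blk_sub_boxE
    · push_cast at k1 ⊢
      omega
    · push_cast at k2 ⊢
      omega
  split_ifs with hT
  · have h4 : ∑ e ∈ T, (Dd.filter (fun c => e ∈ blk c (4 * g))).card = 0 := by
      refine Finset.sum_eq_zero fun e he => ?_
      rw [Finset.card_eq_zero, Finset.filter_eq_empty_iff]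
      intro c hc hec
      exact Finset.disjoint_left.1 hT he (hsub c hc hec)
    rw [← Nat.cast_sum, h1, h4, Nat.cast_zero]
  · have h3 : ∑ e ∈ T, (Dd.filter (fun c => e ∈ blk c (4 * g))).card ≤ T.card * 81 :=
      Finset.sum_le_card_nsmul T _ 81 h2
    rw [← Nat.cast_sum, h1]
    have h4 : ((∑ e ∈ T, (Dd.filter (fun c => e ∈ blk c (4 * g))).card : ℕ) : ℝ) ≤
        ((T.card * 81 : ℕ) : ℝ) := by exact_mod_cast h3
    push_cast at h4 ⊢
    linarith

end main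

/-- **SN-STEP** -/
theorem step (hab : S_AB) (hfm : S_FM) : S_STEP := by
  classical
  obtain ⟨A, r0, c4, c5, hA, hr0, hc4, hc41, hc5, FM⟩ := hfm 32768 (by norm_num)
  have hε : 0 < c4 * c5 / 324 := by positivity
  refine ⟨A, r0, 1 / 4, 1 / (1 + c4 * c5 / 324), c4, hA, hr0, by norm_num, by norm_num,
    by positivity, ?_, hc4, hc41, ?_⟩
  · rw [div_lt_one (by positivity)]
    linarith
  intro n r g hr hgr hn p S I J I' J' D h h' hh hh'
  have hg : 1 ≤ g := by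
    rw [hgr]
    exact Nat.one_le_iff_ne_zero.2 (Nat.mul_ne_zero (by omega) (by omega))
  have hgR : (1 : ℝ) ≤ g := by exact_mod_cast hg
  -- the densities
  set x : ℝ := ((4 * g : ℕ) : ℝ) with hx
  have hx1 : 1 ≤ x := by rw [hx]; push_cast; linarith
  have hx0 : 0 < x := by linarith
  set xp : ℝ := x ^ (3 / 4 : ℝ) with hxp
  have hxp0 : 0 < xp := Real.rpow_pos_of_pos hx0 _
  have hxp1 : 1 ≤ xp := Real.one_le_rpow hx1 (by norm_num)
  have hh1 : h = c4 / xp := by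
    rw [hh, Real.rpow_neg hx0.le]
    exact (div_eq_mul_inv _ _).symm
  have h64 : (2 : ℝ) ≤ (64 : ℝ) ^ (3 / 4 : ℝ) := by
    have e1 : (64 : ℝ) ^ (1 / 2 : ℝ) = 8 := by
      rw [← Real.sqrt_eq_rpow, show (64 : ℝ) = 8 ^ 2 by norm_num, Real.sqrt_sq (by norm_num)]
    have e2 : (64 : ℝ) ^ (1 / 2 : ℝ) ≤ (64 : ℝ) ^ (3 / 4 : ℝ) :=
      Real.rpow_le_rpow_of_exponent_le (by norm_num) (by norm_num)
    linarith
  have hh1' : h' = c4 / ((64 : ℝ) ^ (3 / 4 : ℝ) * xp) := by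
    have e1 : ((256 * g : ℕ) : ℝ) = 64 * x := by rw [hx]; push_cast; ring
    rw [hh', e1, Real.rpow_neg (by positivity), Real.mul_rpow (by norm_num) hx0.le]
    exact (div_eq_mul_inv _ _).symm
  have hh'2 : h' ≤ h / 2 := by
    rw [hh1', hh1, div_div]
    apply div_le_div_of_nonneg_left hc4.le (by positivity)
    rw [mul_comm xp 2]
    exact mul_le_mul_of_nonneg_right h64 hxp0.le
  have h0 : 0 < h := by rw [hh1]; positivity
  have h0' : 0 < h' := by rw [hh1']; positivity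
  have h1 : h ≤ 1 := by
    rw [hh1, div_le_one hxp0]
    linarith
  have hhx : h * xp = c4 := by rw [hh1]; field_simp
  have hle : h' ≤ h := by linarith
  have hdiff : c4 / 2 ≤ (h - h') * xp := by
    have e1 : h / 2 ≤ h - h' := by linarith
    calc c4 / 2 = (h / 2) * xp := by rw [← hhx]; ring
      _ ≤ (h - h') * xp := mul_le_mul_of_nonneg_right e1 hxp0.le
  -- notation
  obtain ⟨AB1, AB2, AB3, -⟩ := hab p D.ok S (boxE n) I J D.sub
  set Cc := Pool.Agent.Y554.SN.cel g (n / 2 + 2 * g) with hCc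
  have hbd : ∀ c ∈ Cc, |c.1| + ((64 * g : ℕ) : ℤ) ≤ n ∧ |c.2| + ((64 * g : ℕ) : ℤ) ≤ n := by
    intro c hc
    rw [hCc, mem_cel] at hc
    have k1 : |c.1| ≤ ((n / 2 + 2 * g : ℕ) : ℤ) := abs_le.2 hc.1
    have k2 : |c.2| ≤ ((n / 2 + 2 * g : ℕ) : ℤ) := abs_le.2 hc.2.1
    have k3 : ((n / 2 + 2 * g : ℕ) : ℤ) + ((64 * g : ℕ) : ℤ) ≤ n := by
      exact_mod_cast (by omega : n / 2 + 2 * g + 64 * g ≤ n)
    constructor <;> linarith
  have hco : ∀ c : ℤ × ℤ, aB p S (boxE n) I J (blk c (64 * g)) h ≤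
      aB p S (boxE n) I J (blk (fl (64 * g) c) (3 * (64 * g))) h' := by
    intro c
    obtain ⟨k1, k2, k3, k4⟩ := fl_bd (g := 64 * g) (by omega) c
    refine (AB1 _ (blk (fl (64 * g) c) (3 * (64 * g))) h ?_ h0.le h1).trans
      (AB2 _ h' h h0'.le hle h1)
    push_cast at k1 k2 k3 k4
    apply blk_sub_blk <;> push_cast <;> linarith
  have hph := phi_le_mm hab D hg hn h0.le h1
  have hmono : phi p S I J n (n / 2 + g) h ≤ phi p S I J n (n / 2 + 64 * g) h' :=
    phi_mono D.ok (by omega) hle h1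
  have hF0 : ∀ c, 0 ≤ aB p S (boxE n) I J (blk c (3 * (64 * g))) h' := fun c =>
    (AB3 _ h' h0'.le (hle.trans h1)).1
  have hcoarse := coarse (n := n) hg
    (fun c => aB p S (boxE n) I J (blk c (3 * (64 * g))) h') hF0
  have hmm' : mm p S I J n (64 * g) h' =
      ∑ c ∈ Pool.Agent.Y554.SN.cel (64 * g) (n / 2 + 2 * (64 * g)),
        aB p S (boxE n) I J (blk c (3 * (64 * g))) h' := rfl
  rw [← hmm'] at hcoarse
  have h364 : ∀ c : ℤ × ℤ, aB p S (boxE n) I J (blk c (3 * g)) h ≤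
      aB p S (boxE n) I J (blk c (64 * g)) h := fun c =>
    AB1 _ _ h (blk_sub_blk (by push_cast; linarith) (by push_cast; linarith)
      (by push_cast; linarith) (by push_cast; linarith)) h0.le h1
  refine ⟨hph, hmono, ?_, ?_⟩
  · refine le_trans ?_ hcoarse
    unfold mm
    exact Finset.sum_le_sum fun c _ => (h364 c).trans (hco c)
  -- the dichotomy
  have hsplit := Finset.sum_filter_add_sum_filter_not Cc
    (fun c => aB p S (boxE n) I J (blk c (64 * g)) h ≤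
      32768 * aB p S (boxE n) I J (blk c (4 * g - 1)) h)
    (fun c => aB p S (boxE n) I J (blk c (3 * g)) h)
  have hmm : mm p S I J n g h = ∑ c ∈ Cc, aB p S (boxE n) I J (blk c (3 * g)) h := rfl
  rw [← hmm] at hsplit
  set D1 := Cc.filter (fun c => aB p S (boxE n) I J (blk c (64 * g)) h ≤
      32768 * aB p S (boxE n) I J (blk c (4 * g - 1)) h) with hD1
  set D2 := Cc.filter (fun c => ¬ aB p S (boxE n) I J (blk c (64 * g)) h ≤
      32768 * aB p S (boxE n) I J (blk c (4 * g - 1)) h) with hD2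
  rcases le_total (∑ c ∈ D1, aB p S (boxE n) I J (blk c (3 * g)) h)
      (∑ c ∈ D2, aB p S (boxE n) I J (blk c (3 * g)) h) with hcase | hcase
  · -- case 1
    left
    have e1 : ∑ c ∈ D2, aB p S (boxE n) I J (blk c (3 * g)) h ≤
        ∑ c ∈ D2, (1 / 32768) * aB p S (boxE n) I J (blk (fl (64 * g) c) (3 * (64 * g))) h' := by
      refine Finset.sum_le_sum fun c hc => ?_
      have k1 := (Finset.mem_filter.1 hc).2
      have k2 : aB p S (boxE n) I J (blk c (3 * g)) h ≤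
          aB p S (boxE n) I J (blk c (4 * g - 1)) h :=
        AB1 _ _ h (by
          have hcast : ((4 * g - 1 : ℕ) : ℤ) = 4 * (g : ℤ) - 1 := by omega
          have hg2 : (1 : ℤ) ≤ g := by exact_mod_cast hg
          apply blk_sub_blk <;> rw [hcast] <;> push_cast <;> linarith) h0.le h1
      have k3 := hco c
      push Not at k1
      linarith
    have e2 : ∑ c ∈ D2, (1 / 32768) * aB p S (boxE n) I J
        (blk (fl (64 * g) c) (3 * (64 * g))) h' ≤
        ∑ c ∈ Cc, (1 / 32768) * aB p S (boxE n) I J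
          (blk (fl (64 * g) c) (3 * (64 * g))) h' :=
      Finset.sum_le_sum_of_subset_of_nonneg (Finset.filter_subset _ _) fun c _ _ =>
        mul_nonneg (by norm_num) (hF0 _)
    rw [← Finset.mul_sum (s := Cc)] at e2
    linarith
  · -- case 2
    right
    have hq : ∀ T, 0 ≤ sp p S (boxE n) (fC I J) T * (1 - h) ^ T.card := fun T =>
      mul_nonneg (H389NS.sp_nonneg D.ok _ _ _ _) (pow_nonneg (by linarith) _)
    have hA4 : A * (4 * r) = 4 * g := by rw [hgr]; ring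
    have hA16 : 16 * (4 * g) = 64 * g := by ring
    have e1 : ∀ c ∈ D1, c5 * xp * aB p S (boxE n) I J (blk c (3 * g)) h ≤
        ∑ T ∈ (boxE n).powerset, sp p S (boxE n) (fC I J) T * (1 - h) ^ T.card *
          ((T ∩ blk c (4 * g)).card : ℝ) := by
      intro c hc
      have hc1 := Finset.mem_filter.1 hc
      have hb := hbd c hc1.1
      have k1 := FM (4 * r) (by omega) p S I J I' J' c
      rw [hA4, hA16] at k1
      have k2 := k1 (domB_of D hb.1 hb.2) (boxE n) D.sub D.fair (blk_sub_boxE hb.1 hb.2) h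
        h0.le h1 (by rw [← hx, ← hxp, hhx]) hc1.2
      rw [← hx, ← hxp] at k2
      refine le_trans ?_ k2
      exact mul_le_mul_of_nonneg_left (h364 c) (by positivity)
    have e2 := Finset.sum_le_sum e1
    rw [← Finset.mul_sum, Finset.sum_comm] at e2
    set P' := (boxE n).powerset.filter (fun T => ¬ Disjoint T (boxE (n / 2 + 64 * g))) with hP'
    set Z := ∑ T ∈ P', sp p S (boxE n) (fC I J) T * (1 - h) ^ T.card * (T.card : ℝ) with hZ
    set Y := ∑ T ∈ P', sp p S (boxE n) (fC I J) T * (1 - h) ^ T.card with hY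
    have e3 : ∑ T ∈ (boxE n).powerset, ∑ c ∈ D1, sp p S (boxE n) (fC I J) T *
        (1 - h) ^ T.card * ((T ∩ blk c (4 * g)).card : ℝ) ≤ 81 * Z := by
      rw [hZ, Finset.mul_sum, hP', Finset.sum_filter]
      refine Finset.sum_le_sum fun T _ => ?_
      rw [← Finset.mul_sum]
      have k1 := mul_le_mul_of_nonneg_left
        (few_blocks (n := n) hg D1 (Finset.filter_subset _ _) T) (hq T)
      refine k1.trans (le_of_eq ?_)
      split_ifs
      · rw [mul_zero]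
      · ring
    have e4 : Y + (h - h') * Z ≤ phi p S I J n (n / 2 + 64 * g) h' := by
      unfold phi
      rw [hY, hZ, Finset.mul_sum, ← Finset.sum_add_distrib]
      refine Finset.sum_le_sum fun T _ => ?_
      have k1 := bern (a := 1 - h) (b := 1 - h') (by linarith) (by linarith) (by linarith) T.card
      have k2 := mul_le_mul_of_nonneg_left k1 (H389NS.sp_nonneg D.ok S (boxE n) (fC I J) T)
      refine le_trans (le_of_eq ?_) k2
      ring
    have e5 : phi p S I J n (n / 2 + g) h ≤ Y := by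
      have k1 := phi_mono (p := p) (S := S) (I := I) (J := J) (n := n) D.ok
        (show n / 2 + g ≤ n / 2 + 64 * g by omega) (le_refl h) h1
      exact k1
    have hZ0 : 0 ≤ Z := by
      rw [hZ]
      exact Finset.sum_nonneg fun T _ => mul_nonneg (hq T) (Nat.cast_nonneg _)
    set M := mm p S I J n g h with hM
    set X0 := phi p S I J n (n / 2 + g) h with hX0
    set X1 := phi p S I J n (n / 2 + 64 * g) h' with hX1
    have e6 : c5 * xp * (M / 2) ≤ 81 * Z := by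
      refine le_trans ?_ (e2.trans e3)
      apply mul_le_mul_of_nonneg_left _ (by positivity)
      linarith
    have hM0 : 0 ≤ M := by
      rw [hM]
      unfold mm
      exact Finset.sum_nonneg fun c _ => (AB3 _ h h0.le h1).1
    have e7 : c4 * c5 / 324 * M ≤ (h - h') * Z := by
      have k1 : (h - h') * (c5 * xp * (M / 2)) ≤ (h - h') * (81 * Z) :=
        mul_le_mul_of_nonneg_left e6 (by linarith)
      have k2 : c4 / 2 * (c5 * (M / 2)) ≤ (h - h') * xp * (c5 * (M / 2)) :=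
        mul_le_mul_of_nonneg_right hdiff (by positivity)
      nlinarith
    have e8 : c4 * c5 / 324 * X0 ≤ c4 * c5 / 324 * M := mul_le_mul_of_nonneg_left hph hε.le
    rw [one_div, inv_mul_eq_div, le_div_iff₀ (by positivity)]
    nlinarith

end Pool.Agent.Y77.SN
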